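import Mathlib
import Pool.Agent.H.MP_36cdb9_an.U.Main

/-! Weak-star compact subsets of the dual of a separable Banach space without `ℓ₁` are dentable
and have slices of arbitrarily small norm diameter. -/

set_option autoImplicit false

namespace Pool.Agent.Results.MP_36cdb9_an.WeakStarDentability

/-- Some closed subspace of `X` is isomorphic to `ℓ₁`. -/
def ContainsL1 (X : Type*) [NormedAddCommGroup X] [NormedSpace ℝ X] : Prop :=
  ∃ S : Submodule ℝ X, IsClosed (S : Set X) ∧ Nonempty (lp (fun _ : ℕ => ℝ) 1 ≃L[ℝ] S)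

/-- `A` is dentable. -/
def Dentable {Z : Type*} [NormedAddCommGroup Z] [NormedSpace ℝ Z] (A : Set Z) : Prop :=
  ∀ ε : ℝ, 0 < ε → ∃ x ∈ A, x ∉ closure (convexHull ℝ (A \ Metric.ball x ε))

/-- `A` has nonempty slices (intersections with open half-spaces) of arbitrarily small
diameter. -/
def HasSmallSlices {Z : Type*} [NormedAddCommGroup Z] [NormedSpace ℝ Z] (A : Set Z) : Prop :=
  ∀ ε : ℝ, 0 < ε → ∃ (Λ : Z →L[ℝ] ℝ) (t : ℝ), (∃ x ∈ A, t < Λ x) ∧
    ∀ y ∈ A, ∀ z ∈ A, t < Λ y → t < Λ z → ‖y - z‖ < ε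

theorem Dentable.hasSmallSlices {Z : Type*} [NormedAddCommGroup Z] [NormedSpace ℝ Z]
    {A : Set Z} (h : Dentable A) : HasSmallSlices A := by
  intro ε hε
  obtain ⟨x, hxA, hx⟩ := h (ε / 2) (by positivity)
  obtain ⟨Λ, t, h1, h2⟩ := geometric_hahn_banach_closed_point
    (convex_convexHull ℝ (A \ Metric.ball x (ε / 2))).closure isClosed_closure hx
  have key : ∀ y ∈ A, t < Λ y → ‖y - x‖ < ε / 2 := by
    intro y hy hty
    by_contra hcon
    have h3 : y ∈ A \ Metric.ball x (ε / 2) := by
      refine ⟨hy, ?_⟩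
      rw [Metric.mem_ball, dist_eq_norm]
      exact hcon
    exact absurd (h1 y (subset_closure (subset_convexHull ℝ _ h3))) (not_lt.2 hty.le)
  refine ⟨Λ, t, ⟨x, hxA, h2⟩, fun y hy z hz hty htz => ?_⟩
  calc ‖y - z‖ = ‖(y - x) - (z - x)‖ := by rw [sub_sub_sub_cancel_right]
    _ ≤ ‖y - x‖ + ‖z - x‖ := norm_sub_le _ _
    _ < ε / 2 + ε / 2 := add_lt_add (key y hy hty) (key z hz htz)
    _ = ε := by ring

theorem containsL1_of_hasL1 {X : Type*} [NormedAddCommGroup X] [NormedSpace ℝ X] [CompleteSpace X]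
    (h : Pool.Agent.H.MP_36cdb9_an.U.HasL1 X) : ContainsL1 X := by
  obtain ⟨T, c, hc, hT⟩ := h
  have hanti : AntilipschitzWith (Real.toNNReal c⁻¹) T := by
    apply ContinuousLinearMap.antilipschitz_of_bound
    intro v
    rw [Real.coe_toNNReal _ (by positivity)]
    rw [inv_mul_eq_div, le_div_iff₀ hc, mul_comm]
    exact hT v
  have hclosed : IsClosed (Set.range T) := hanti.isClosed_range T.uniformContinuous
  have hinj : Function.Injective T := hanti.injective
  exact ⟨_, hclosed, ⟨ContinuousLinearMap.equivRange hinj hclosed⟩⟩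

/-- Every nonempty weak-star compact subset `K` of the dual of a separable Banach space `X`
without closed subspaces isomorphic to `ℓ₁` is dentable for the dual norm, and has slices of
arbitrarily small norm diameter. -/
theorem result (X : Type*) [NormedAddCommGroup X] [NormedSpace ℝ X] [CompleteSpace X]
    [TopologicalSpace.SeparableSpace X] (hX : ¬ ContainsL1 X)
    (K : Set (WeakDual ℝ X)) (hK : IsCompact K) (hne : K.Nonempty) :
    Dentable (WeakDual.toStrongDual '' K) ∧ HasSmallSlices (WeakDual.toStrongDual '' K) := by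
  have h : Dentable (WeakDual.toStrongDual '' K) := by
    intro ε hε
    refine Pool.Agent.H.MP_36cdb9_an.U.main (fun h => hX (containsL1_of_hasL1 h))
      (WeakDual.toStrongDual '' K) ?_ (hne.image _) ε hε
    have h1 : (WeakDual.toStrongDual '' K : Set (X →L[ℝ] ℝ)) = (K : Set (X →L[ℝ] ℝ)) :=
      Set.image_id _
    rw [h1]
    exact hK
  exact ⟨h, h.hasSmallSlices⟩

end Pool.Agent.Results.MP_36cdb9_an.WeakStarDentability
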